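import Pool.Agent.H598.WA.Final

set_option autoImplicit false

/-! FI-T2 (for helper598): weak approximation for the field `F(t)` itself. -/

namespace Pool.Agent.H800.FI

open Polynomial WithZero IsDedekindDomain Pool.Agent.H598.WA

lemma aux {x y : WithZero (Multiplicative ℤ)} {J n : ℕ} (hy : y ≤ exp (-(J : ℤ)))
    (hJ : n + (log x).toNat ≤ J) : y * x ≤ exp (-(n : ℤ)) := by
  calc y * x ≤ exp (-(J : ℤ)) * exp ((log x).toNat : ℤ) := mul_le_mul' hy (le_exp_toNat x)
    _ ≤ exp (-(n : ℤ)) := by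
      rw [← exp_add, exp_le_exp]
      omega

/-- approximation at the finite places -/
lemma fin_approx {F : Type*} [Field F]
    (S : Finset (HeightOneSpectrum F[X])) (θ : HeightOneSpectrum F[X] → RatFunc F) (n : ℕ) :
    ∃ g : RatFunc F, ∀ v ∈ S, v.valuation (RatFunc F) (g - θ v) ≤ exp (-(n : ℤ)) := by
  classical
  set e : ℕ := ∑ v ∈ S, (log (v.valuation (RatFunc F) (θ v))).toNat with he
  obtain ⟨D, hD0, hD, -⟩ := exists_w S (fun _ => -(e : ℤ))
  have h1 : ∀ v ∈ S, v.valuation (RatFunc F) (D * θ v) ≤ 1 := by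
    intro v hv
    have h2 : (log (v.valuation (RatFunc F) (θ v))).toNat ≤ e :=
      Finset.single_le_sum (f := fun v : HeightOneSpectrum F[X] =>
        (log (v.valuation (RatFunc F) (θ v))).toNat) (fun _ _ => Nat.zero_le _) hv
    rw [map_mul, hD v hv]
    have h3 := aux (x := v.valuation (RatFunc F) (θ v)) (y := exp (-(e : ℤ))) (J := e) (n := 0)
      le_rfl (by omega)
    simpa using h3
  obtain ⟨β, hβ⟩ := exists_poly S (fun v => D * θ v) h1 (n + e)
  refine ⟨algebraMap F[X] (RatFunc F) β / D, fun v hv => ?_⟩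
  have h4 : algebraMap F[X] (RatFunc F) β / D - θ v =
      (algebraMap F[X] (RatFunc F) β - D * θ v) * D⁻¹ := by
    rw [sub_mul, mul_comm D (θ v), mul_assoc, mul_inv_cancel₀ hD0, mul_one, div_eq_mul_inv]
  rw [h4, map_mul, map_inv₀, hD v hv, ← exp_neg]
  calc v.valuation (RatFunc F) (algebraMap F[X] (RatFunc F) β - D * θ v) * exp (-(-(e : ℤ)))
      ≤ exp (-((n + e : ℕ) : ℤ)) * exp (-(-(e : ℤ))) := mul_le_mul' (hβ v hv) le_rfl
    _ ≤ exp (-(n : ℤ)) := by
      rw [← exp_add, exp_le_exp]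
      push_cast
      omega

/-- Weak approximation for the field `F(t)` itself. -/
theorem wa_K {F : Type*} [Field F] [DecidableEq (RatFunc F)]
    (S : Finset (HeightOneSpectrum F[X])) (θ : HeightOneSpectrum F[X] → RatFunc F)
    (θi : RatFunc F) (n : ℕ) :
    ∃ z : RatFunc F, (∀ v ∈ S, v.valuation (RatFunc F) (z - θ v) ≤ exp (-(n : ℤ))) ∧
      RatFunc.inftyValuation F (z - θi) ≤ exp (-(n : ℤ)) := by
  obtain ⟨g, hg⟩ := fin_approx S θ n
  set J : ℕ := n + 1 + ∑ v ∈ S, (log (v.valuation (RatFunc F) (θi - g))).toNat +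
    (log (RatFunc.inftyValuation F (g - θi))).toNat with hJ
  set q : F[X] := ∏ v ∈ S, (gn v) ^ J with hq
  have hq0 : q ≠ 0 := Finset.prod_ne_zero_iff.2 (fun v _ => pow_ne_zero _ (gn_irr v).ne_zero)
  set p : F[X] := X ^ J * q with hp
  have hX0 : (X ^ J : F[X]) ≠ 0 := pow_ne_zero _ X_ne_zero
  have hdeg : p.natDegree = J + q.natDegree := by
    rw [hp, natDegree_mul hX0 hq0, natDegree_X_pow]
  have hdeg1 : (1 + p).natDegree = p.natDegree := by
    apply natDegree_add_eq_right_of_natDegree_lt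
    rw [natDegree_one, hdeg]
    omega
  have h1p : (1 + p : F[X]) ≠ 0 := by
    intro h
    rw [h, natDegree_zero, hdeg] at hdeg1
    omega
  have h1P : (1 + algebraMap F[X] (RatFunc F) p) ≠ 0 := by
    have := RatFunc.algebraMap_ne_zero h1p
    rwa [map_add, map_one] at this
  set P : RatFunc F := algebraMap F[X] (RatFunc F) p with hP
  have hinf : RatFunc.inftyValuation F ((1 + P)⁻¹) ≤ exp (-(J : ℤ)) := by
    have h2 : (1 + P) = algebraMap F[X] (RatFunc F) (1 + p) := by
      rw [map_add, map_one]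
    rw [map_inv₀, h2, val_inf_poly h1p, ← exp_neg, exp_le_exp, hdeg1, hdeg]
    push_cast
    omega
  have hvP : ∀ v ∈ S, v.valuation (RatFunc F) P ≤ exp (-(J : ℤ)) := by
    intro v hv
    rw [hP, int_le_pow_iff]
    exact Dvd.dvd.mul_left (Finset.dvd_prod_of_mem (fun v => gn v ^ J) hv) _
  have hvρ : ∀ v ∈ S, v.valuation (RatFunc F) (P / (1 + P)) ≤ exp (-(J : ℤ)) := by
    intro v hv
    have h3 : v.valuation (RatFunc F) P < 1 := by
      refine lt_of_le_of_lt (hvP v hv) ?_
      rw [← exp_zero, exp_lt_exp]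
      omega
    rw [map_div₀, Valuation.map_one_add_of_lt _ h3, div_one]
    exact hvP v hv
  refine ⟨P / (1 + P) * θi + (1 + P)⁻¹ * g, fun v hv => ?_, ?_⟩
  · have h4 : P / (1 + P) * θi + (1 + P)⁻¹ * g - θ v =
        P / (1 + P) * (θi - g) + (g - θ v) := by
      field_simp
      ring
    rw [h4]
    refine le_trans (Valuation.map_add _ _ _) (max_le ?_ (hg v hv))
    rw [map_mul]
    refine aux (hvρ v hv) ?_
    have h5 : (log (v.valuation (RatFunc F) (θi - g))).toNat ≤
        ∑ v ∈ S, (log (v.valuation (RatFunc F) (θi - g))).toNat :=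
      Finset.single_le_sum (f := fun v : HeightOneSpectrum F[X] =>
        (log (v.valuation (RatFunc F) (θi - g))).toNat) (fun _ _ => Nat.zero_le _) hv
    omega
  · have h6 : P / (1 + P) * θi + (1 + P)⁻¹ * g - θi = (1 + P)⁻¹ * (g - θi) := by
      field_simp
      ring
    rw [h6, map_mul]
    refine aux hinf ?_
    omega

end Pool.Agent.H800.FI
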